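import Pool.Agent.H79.BN.Targets3

/-! Non-separation, row S0: reflected directions. -/

namespace Pool.Agent.H14.BN

open MeasureTheory Set Filter Topology Pool.Agent.H93.BL Pool.Agent.H79.BN

theorem sq_norm_eq (e : ℂ) : ‖e‖ ^ 2 = e.re ^ 2 + e.im ^ 2 := by
  rw [Complex.sq_norm, Complex.normSq_apply]
  ring

theorem rfn_re (e v : ℂ) : (rfn e v).re =
    ((e.re ^ 2 - e.im ^ 2) * v.re + 2 * e.re * e.im * v.im) / ‖e‖ ^ 2 := by
  unfold rfn rf
  rw [Complex.div_ofReal_re, Complex.mul_re, Complex.conj_re, Complex.conj_im, pow_two e,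
    Complex.mul_re, Complex.mul_im]
  ring

theorem rfn_im (e v : ℂ) : (rfn e v).im =
    (2 * e.re * e.im * v.re - (e.re ^ 2 - e.im ^ 2) * v.im) / ‖e‖ ^ 2 := by
  unfold rfn rf
  rw [Complex.div_ofReal_im, Complex.mul_im, Complex.conj_re, Complex.conj_im, pow_two e,
    Complex.mul_re, Complex.mul_im]
  ring

theorem s0 : T_S0 := by
  intro e v u he
  have hN : 0 < ‖e‖ ^ 2 := by
    have : 0 < ‖e‖ := norm_pos_iff.2 he
    positivity
  have hN0 : e.re ^ 2 + e.im ^ 2 ≠ 0 := by
    rw [← sq_norm_eq]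
    exact hN.ne'
  refine ⟨?_, ?_, ?_, ?_, ?_⟩
  · unfold rfn rf
    rw [norm_div, norm_mul, norm_pow, Complex.norm_conj, Complex.norm_real, Real.norm_eq_abs,
      abs_of_pos hN]
    field_simp
  · unfold ip cr
    rw [rfn_re, rfn_im, sq_norm_eq]
    field_simp
    ring
  · intro c
    have h1 : ((c : ℂ) * e).re = c * e.re := by simp
    have h2 : ((c : ℂ) * e).im = c * e.im := by simp
    unfold ip cr
    rw [rfn_re, rfn_im, h1, h2, sq_norm_eq]
    constructor
    · field_simp
      ring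
    · field_simp
      ring
  · intro hc
    unfold cr at hc
    apply Complex.ext
    · rw [rfn_re, sq_norm_eq, div_eq_iff hN0]
      linear_combination 2 * e.im * hc
    · rw [rfn_im, sq_norm_eq, div_eq_iff hN0]
      linear_combination -2 * e.re * hc
  · unfold rfn
    have h1 : (((‖e‖ ^ 2 : ℝ)) : ℂ) ≠ 0 := by
      rw [Complex.ofReal_ne_zero]
      exact hN.ne'
    field_simp

end Pool.Agent.H14.BN
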