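import Pool.Agent.H79.BN.Triv
import Pool.Agent.H14.BN.S0

/-! Non-separation, row MP: the maximum principle. -/

namespace Pool.Agent.H14.BN

open MeasureTheory Set Filter Topology Pool.Agent.H93.BL Pool.Agent.H79.BN

theorem cr_smul_right (e v : ℂ) (c : ℝ) : cr e ((c : ℂ) * v) = c * cr e v := by
  unfold cr
  simp
  ring

theorem cr_smul_left (e v : ℂ) (c : ℝ) : cr ((c : ℂ) * e) v = c * cr e v := by
  unfold cr
  simp
  ring

theorem cr_self (e : ℂ) : cr e e = 0 := by
  unfold cr
  ring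

theorem cr_swap (e v : ℂ) : cr e v = -cr v e := by
  unfold cr
  ring

theorem cr_add (e v u : ℂ) : cr e (v + u) = cr e v + cr e u := by
  unfold cr
  simp
  ring

theorem cr_sub (e v u : ℂ) : cr e (v - u) = cr e v - cr e u := by
  unfold cr
  simp
  ring

theorem cr_sum {ι : Type} (e : ℂ) (s : Finset ι) (f : ι → ℂ) :
    cr e (∑ i ∈ s, f i) = ∑ i ∈ s, cr e (f i) := by
  classical
  induction s using Finset.induction_on with
  | empty => simp [cr]
  | insert a s ha ih => rw [Finset.sum_insert ha, Finset.sum_insert ha, cr_add, ih]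

theorem par_of_cr {e d : ℂ} (he : e ≠ 0) (h : cr e d = 0) : ∃ c : ℝ, d = (c : ℂ) * e := by
  have hN0 : e.re ^ 2 + e.im ^ 2 ≠ 0 := by
    rw [← sq_norm_eq]
    have : 0 < ‖e‖ := norm_pos_iff.2 he
    positivity
  unfold cr at h
  refine ⟨(e.re * d.re + e.im * d.im) / (e.re ^ 2 + e.im ^ 2), ?_⟩
  apply Complex.ext
  · have h1 : ((((e.re * d.re + e.im * d.im) / (e.re ^ 2 + e.im ^ 2) : ℝ) : ℂ) * e).re =
        (e.re * d.re + e.im * d.im) / (e.re ^ 2 + e.im ^ 2) * e.re := by
      rw [Complex.re_ofReal_mul]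
    rw [h1]
    field_simp
    linear_combination -e.im * h
  · have h1 : ((((e.re * d.re + e.im * d.im) / (e.re ^ 2 + e.im ^ 2) : ℝ) : ℂ) * e).im =
        (e.re * d.re + e.im * d.im) / (e.re ^ 2 + e.im ^ 2) * e.im := by
      rw [Complex.im_ofReal_mul]
    rw [h1]
    field_simp
    linear_combination e.re * h

/-- points of a segment -/
theorem seg_param {a b y : ℂ} (h : y ∈ segment ℝ a b) :
    ∃ θ : ℝ, 0 ≤ θ ∧ θ ≤ 1 ∧ y = a + (θ : ℂ) * (b - a) := by
  rw [segment_eq_image'] at h
  obtain ⟨θ, hθ, h⟩ := h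
  refine ⟨θ, hθ.1, hθ.2, ?_⟩
  rw [← h]
  simp [Complex.real_smul]

theorem ab_near {n : ℕ} [NeZero n] {w : Fin n → ℂ} {E : Set (Fin n)} {y d : ℂ}
    (h : Ab w E y d) (hd : ‖d‖ = 1) : ∃ δ > (0 : ℝ), ∀ y' d' : ℂ, ‖y' - y‖ < δ → ‖d' - d‖ < δ →
      ‖d'‖ = 1 → Ab w E y' d' := by
  obtain ⟨δ, hδ, h⟩ := h
  refine ⟨δ / 2, by positivity, fun y' d' hy hd1 hd' => ⟨δ / 2, by positivity, ?_⟩⟩
  intro P hP z hz1 hz2
  refine h P ⟨hP.1, fun i => (hP.2 i).trans (by linarith)⟩ z ?_ ?_
  · calc ‖P.pos z - y‖ = ‖(P.pos z - y') + (y' - y)‖ := by ring_nf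
      _ ≤ ‖P.pos z - y'‖ + ‖y' - y‖ := norm_add_le _ _
      _ < δ := by linarith
  · rw [hd'] at hz2
    rw [hd]
    simp only [Complex.ofReal_one, div_one] at hz2 ⊢
    calc ‖P.dir z - d‖ = ‖(P.dir z - d') + (d' - d)‖ := by ring_nf
      _ ≤ ‖P.dir z - d'‖ + ‖d' - d‖ := norm_add_le _ _
      _ < δ := by linarith

theorem mp (h1 : T_V1) (hf0 : T_F0) (hrm : T_RM) (hrp : T_RP) (hs0 : T_S0) : T_MP := by
  classical
  intro n _ w E hn hw K G hK hG hnorm hH
  obtain ⟨hed, -, hpos, hge, -⟩ := h1 n w hn hw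
  have hv0 := v0 n hn
  -- scaling
  have hab1 : ∀ (s : Fin n) (y d : ℂ), Ab w E y (rf (ed w s) d) →
      Ab w E y (rfn (ed w s) d) := by
    intro s y d h
    have hN : 0 < ‖ed w s‖ ^ 2 := by
      have : 0 < ‖ed w s‖ := norm_pos_iff.2 (hed s)
      positivity
    refine hf0 n w E y _ (‖ed w s‖ ^ 2) hN ?_
    rw [← (hs0 (ed w s) d 0 (hed s)).2.2.2.2]
    exact h
  have hab2 : ∀ (s : Fin n) (y d : ℂ), Ab w E y (rfn (ed w s) d) →
      Ab w E y (rf (ed w s) d) := by
    intro s y d h
    have hN : 0 < ‖ed w s‖ ^ 2 := by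
      have : 0 < ‖ed w s‖ := norm_pos_iff.2 (hed s)
      positivity
    refine hf0 n w E y _ (1 / ‖ed w s‖ ^ 2) (by positivity) ?_
    have e : (((1 / ‖ed w s‖ ^ 2 : ℝ)) : ℂ) * rf (ed w s) d = rfn (ed w s) d := by
      unfold rfn
      push_cast
      ring
    rw [e]
    exact h
  -- the compact set
  set K0 : Set (ℂ × ℂ) := {p | p ∈ K ∧ p.1 ∈ ⋃ s, segment ℝ (w s) (w (s + 1)) ∧
    ¬ Ab w E p.1 p.2} with hK0
  have hU : IsCompact (⋃ s, segment ℝ (w s) (w (s + 1))) := by
    refine isCompact_iUnion fun s => ?_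
    rw [segment_eq_image_lineMap]
    exact isCompact_Icc.image (AffineMap.lineMap_continuous)
  have hK0c : IsCompact K0 := by
    refine (hU.prod (isCompact_sphere (0 : ℂ) 1)).of_isClosed_subset ?_ ?_
    · rw [← isOpen_compl_iff, Metric.isOpen_iff]
      intro p hp
      by_cases hpK : p ∈ K
      · by_cases hpU : p.1 ∈ ⋃ s, segment ℝ (w s) (w (s + 1))
        · have hA : Ab w E p.1 p.2 := by
            by_contra hA
            exact hp ⟨hpK, hpU, hA⟩
          obtain ⟨δ, hδ, h⟩ := ab_near hA (hnorm p hpK)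
          refine ⟨δ, hδ, fun p' hp' hp'' => hp''.2.2 ?_⟩
          rw [Metric.mem_ball, dist_eq_norm] at hp'
          have h2 : ‖p'.1 - p.1‖ ≤ ‖p' - p‖ := norm_fst_le (p' - p)
          have h3 : ‖p'.2 - p.2‖ ≤ ‖p' - p‖ := norm_snd_le (p' - p)
          exact h _ _ (h2.trans_lt hp') (h3.trans_lt hp') (hnorm p' hp''.1)
        · obtain ⟨ε, hε, h⟩ := Metric.isOpen_iff.1
            ((hU.isClosed.preimage continuous_fst).isOpen_compl) p hpU
          exact ⟨ε, hε, fun p' hp' hp'' => h hp' hp''.2.1⟩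
      · obtain ⟨ε, hε, h⟩ := Metric.isOpen_iff.1 hK.isOpen_compl p hpK
        exact ⟨ε, hε, fun p' hp' hp'' => h hp' hp''.1⟩
    · intro p hp
      refine ⟨hp.2.1, ?_⟩
      rw [mem_sphere_zero_iff_norm]
      exact hnorm p hp.1
  -- it is empty
  have hempty : K0 = ∅ := by
    by_contra hne
    obtain ⟨p₀, hp₀, hmax⟩ := hK0c.exists_isMaxOn (nonempty_iff_ne_empty.2 hne) hG.continuousOn
    set M := G p₀ with hM
    have hmax' : ∀ p ∈ K0, G p ≤ M := fun p hp => hmax hp
    -- one step
    have hstep : ∀ (y d : ℂ) (s : Fin n) (t : ℝ), (y, d) ∈ K0 → G (y, d) = M → s ∉ E → 0 ≤ t →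
        y + (t : ℂ) * d ∈ segment ℝ (w s) (w (s + 1)) → cr (ed w s) d ≤ 0 →
        ¬ Ab w E (y + (t : ℂ) * d) (rf (ed w s) d) →
        t = 0 ∧ (y, rfn (ed w s) d) ∈ K0 ∧ G (y, rfn (ed w s) d) = M := by
      intro y d s t hyd hGM hs ht hseg hcr hna
      obtain ⟨hk1, hk2, hk3⟩ := hH y d s t hyd.1 hs ht hseg hcr
      have hk4 : (y + (t : ℂ) * d, rfn (ed w s) d) ∈ K0 :=
        ⟨hk1, mem_iUnion.2 ⟨s, hseg⟩, fun h => hna (hab2 s _ _ h)⟩
      have hk5 := hmax' _ hk4
      have ht0 : t = 0 := by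
        by_contra h0
        have h2 := hk3 (lt_of_le_of_ne ht (Ne.symm h0))
        rw [hGM] at h2
        linarith
      subst ht0
      simp only [Complex.ofReal_zero, zero_mul, add_zero] at hk4 hk5 hk2
      rw [hGM] at hk2
      exact ⟨rfl, hk4, le_antisymm hk5 hk2⟩
    -- STEP A
    have hA : ∀ y d : ℂ, (y, d) ∈ K0 → G (y, d) = M → ∃ s : Fin n,
        y ∈ segment ℝ (w s) (w (s + 1)) ∧ cr (ed w s) d < 0 ∧ (y, rfn (ed w s) d) ∈ K0 ∧
        G (y, rfn (ed w s) d) = M := by
      intro y d hyd hGM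
      have hd1 : ‖d‖ = 1 := hnorm _ hyd.1
      have hd0 : d ≠ 0 := by
        intro h
        rw [h, norm_zero] at hd1
        exact zero_ne_one hd1
      have hex : ∃ s, s ∉ E ∧ ∃ t : ℝ, 0 ≤ t ∧ y + (t : ℂ) * d ∈ segment ℝ (w s) (w (s + 1)) ∧
          cr (ed w s) d ≤ 0 ∧ ¬ Ab w E (y + (t : ℂ) * d) (rf (ed w s) d) := by
        by_contra hcon
        apply hyd.2.2
        refine hrm n w E y d hn hw hd0 ?_
        intro s hs t ht hseg hcr
        by_contra hna
        exact hcon ⟨s, hs, t, ht, hseg, hcr, hna⟩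
      obtain ⟨s, hs, t, ht, hseg, hcr, hna⟩ := hex
      obtain ⟨ht0, hk1, hk2⟩ := hstep y d s t hyd hGM hs ht hseg hcr hna
      subst ht0
      simp only [Complex.ofReal_zero, zero_mul, add_zero] at hseg
      rcases lt_or_eq_of_le hcr with hlt | heq
      · exact ⟨s, hseg, hlt, hk1, hk2⟩
      · obtain ⟨c, hc⟩ := par_of_cr (hed s) heq
        have hc0 : c ≠ 0 := by
          rintro rfl
          rw [Complex.ofReal_zero, zero_mul] at hc
          exact hd0 hc
        have hcC : (c : ℂ) ≠ 0 := by exact_mod_cast hc0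
        obtain ⟨θ, hθ0, hθ1, hθ⟩ := seg_param hseg
        have hθ' : y = w s + (θ : ℂ) * ed w s := hθ
        obtain ⟨-, -, -, -, -, hi1, hi2, -, -, hi3⟩ := hv0 s
        rcases lt_or_gt_of_ne hc0 with hneg | hposc
        · -- backwards
          have hnc : ¬ (s - 1 ∈ E ∨ Ab w E (w s) (rf (ed w (s - 1)) d)) := by
            intro hor
            have h2 := (hrp n w E d (s + 1) (-c) hn hw (by linarith)).2
              (by
                rw [hi2, hc]
                push_cast
                ring)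
              (by
                rw [hi3, hi2]
                exact hor)
            apply hyd.2.2
            have h3 := h2 ((θ - 1) / c)
            have h4 : w (s + 1) + (((θ - 1) / c : ℝ) : ℂ) * d = y := by
              rw [hθ', hc]
              push_cast
              unfold ed
              field_simp
              ring
            rw [h4] at h3
            exact h3
          rw [not_or] at hnc
          have hseg2 : y + ((-(θ / c) : ℝ) : ℂ) * d = w s := by
            rw [hθ', hc]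
            push_cast
            field_simp
            ring
          have hmem : w s ∈ segment ℝ (w (s - 1)) (w (s - 1 + 1)) := by
            rw [hi1]
            exact right_mem_segment ℝ _ _
          have hcr2 : cr (ed w (s - 1)) d < 0 := by
            rw [hc, cr_smul_right]
            have h2 := hpos (s - 1)
            rw [hi1] at h2
            exact mul_neg_of_neg_of_pos hneg h2
          obtain ⟨ht0, hk3, hk4⟩ := hstep y d (s - 1) (-(θ / c)) hyd hGM hnc.1
            (by
              rw [neg_nonneg]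
              exact div_nonpos_of_nonneg_of_nonpos hθ0 hneg.le)
            (by rw [hseg2]; exact hmem) hcr2.le (by rw [hseg2]; exact hnc.2)
          rw [ht0, Complex.ofReal_zero, zero_mul, add_zero] at hseg2
          exact ⟨s - 1, by rw [hseg2]; exact hmem, hcr2, hk3, hk4⟩
        · -- forwards
          have hnc : ¬ (s + 1 ∈ E ∨ Ab w E (w (s + 1)) (rf (ed w (s + 1)) d)) := by
            intro hor
            have h2 := (hrp n w E d s c hn hw hposc).1 hc hor
            apply hyd.2.2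
            have h3 := h2 (θ / c)
            have h4 : w s + ((θ / c : ℝ) : ℂ) * d = y := by
              rw [hθ', hc]
              push_cast
              field_simp
            rw [h4] at h3
            exact h3
          rw [not_or] at hnc
          have hseg2 : y + (((1 - θ) / c : ℝ) : ℂ) * d = w (s + 1) := by
            rw [hθ', hc]
            push_cast
            unfold ed
            field_simp
            ring
          have hmem : w (s + 1) ∈ segment ℝ (w (s + 1)) (w (s + 1 + 1)) :=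
            left_mem_segment ℝ _ _
          have hcr2 : cr (ed w (s + 1)) d < 0 := by
            rw [hc, cr_smul_right, cr_swap]
            have h2 := hpos s
            nlinarith
          obtain ⟨ht0, hk3, hk4⟩ := hstep y d (s + 1) ((1 - θ) / c) hyd hGM hnc.1
            (div_nonneg (by linarith) hposc.le)
            (by rw [hseg2]; exact hmem) hcr2.le (by rw [hseg2]; exact hnc.2)
          rw [ht0, Complex.ofReal_zero, zero_mul, add_zero] at hseg2
          exact ⟨s + 1, by rw [hseg2]; exact hmem, hcr2, hk3, hk4⟩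
    -- STEP B
    set y := p₀.1 with hy
    set b : ℂ := ∑ j, (w j - y) with hb
    have hbpos : ∀ s, y ∈ segment ℝ (w s) (w (s + 1)) → 0 < cr (ed w s) b := by
      intro s hs
      obtain ⟨θ, -, -, hθ⟩ := seg_param hs
      have h2 : cr (ed w s) b = ∑ j, cr (ed w s) (w j - w s) := by
        rw [hb, cr_sum]
        refine Finset.sum_congr rfl fun j _ => ?_
        have h3 : w j - y = (w j - w s) - (θ : ℂ) * ed w s := by
          rw [hθ]
          unfold ed
          ring
        rw [h3, cr_sub, cr_smul_right, cr_self, mul_zero, sub_zero]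
      rw [h2]
      obtain ⟨-, hi4, hi5, -⟩ := hv0 s
      exact Finset.sum_pos' (fun j _ => hge s j) ⟨s + 2, Finset.mem_univ _, hw s (s + 2) hi4 hi5⟩
    set L : Set ℂ := {d | (y, d) ∈ K0 ∧ G (y, d) = M} with hL
    have hLc : IsCompact L := by
      refine (isCompact_sphere (0 : ℂ) 1).of_isClosed_subset ?_ ?_
      · have hc1 : Continuous fun d : ℂ => ((y, d) : ℂ × ℂ) := by fun_prop
        exact (hK0c.isClosed.preimage hc1).inter (isClosed_eq (hG.comp hc1) continuous_const)
      · intro d hd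
        rw [mem_sphere_zero_iff_norm]
        exact hnorm _ hd.1.1
    have hLne : L.Nonempty := ⟨p₀.2, hp₀, rfl⟩
    have hcont : Continuous fun d : ℂ => ip d b := by
      unfold ip
      fun_prop
    obtain ⟨d, hd, hdmax⟩ := hLc.exists_isMaxOn hLne hcont.continuousOn
    obtain ⟨s, hs1, hs2, hs3, hs4⟩ := hA y d hd.1 hd.2
    have h2 : ip (rfn (ed w s) d) b ≤ ip d b := hdmax (show rfn (ed w s) d ∈ L from ⟨hs3, hs4⟩)
    rw [(hs0 (ed w s) d b (hed s)).2.1] at h2
    have h3 := hbpos s hs1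
    have hN : 0 < ‖ed w s‖ ^ 2 := by
      have : 0 < ‖ed w s‖ := norm_pos_iff.2 (hed s)
      positivity
    have h4 : 2 * (cr (ed w s) d * cr (ed w s) b) / ‖ed w s‖ ^ 2 < 0 := by
      apply div_neg_of_neg_of_pos _ hN
      nlinarith
    linarith
  -- conclusion
  intro y d hyd
  have hd1 : ‖d‖ = 1 := hnorm _ hyd
  have hd0 : d ≠ 0 := by
    intro h
    rw [h, norm_zero] at hd1
    exact zero_ne_one hd1
  refine hrm n w E y d hn hw hd0 ?_
  intro s hs t ht hseg hcr
  refine hab2 s _ _ ?_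
  by_contra hna
  have h2 : (y + (t : ℂ) * d, rfn (ed w s) d) ∈ K0 :=
    ⟨(hH y d s t hyd hs ht hseg hcr).1, mem_iUnion.2 ⟨s, hseg⟩, hna⟩
  rw [hempty] at h2
  exact h2

end Pool.Agent.H14.BN
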